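import Pool.Agent.W788.NW.Stm

/-!
# NUB: the spine has few neighbours which matter (project NW, problem MP_2bac73_pr)
-/

namespace Pool.Agent.W935.NW.NUB

open Finset Pool.Agent.W788.NV Pool.Agent.W788.NW

section

variable {V : Type} [Fintype V] [DecidableEq V] {q : ℕ}

lemma wa_ge {ω : V → V → ℝ} (h1 : ∀ j y, 1 ≤ ω j y) {Ψ : Mp V q} {j y : V} (hj : j ∈ dep Ψ y) :
    ω j y ≤ wa ω j Ψ := by
  unfold wa
  have h := Finset.single_le_sum (f := fun y => if j ∈ dep Ψ y then ω j y else 0) (s := univ)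
    (fun i _ => by
      split_ifs
      · exact le_trans zero_le_one (h1 j i)
      · exact le_refl _) (mem_univ y)
  rwa [if_pos hj] at h

lemma wa_nonneg {ω : V → V → ℝ} (h1 : ∀ j y, 1 ≤ ω j y) (Ψ : Mp V q) (j : V) :
    0 ≤ wa ω j Ψ := by
  unfold wa
  refine sum_nonneg fun i _ => ?_
  split_ifs
  · exact le_trans zero_le_one (h1 j i)
  · exact le_refl _

lemma hit_ind (ν : (V → Fin q) → ℝ) (z : V → Fin q) (Φ : Mp V q) (P : Prop) [Decidable P] :
    hit (fun x => if P then ν x else 0) z Φ = (if P then 1 else 0) * hit ν z Φ := by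
  unfold hit
  split_ifs <;> simp

lemma hit_nonneg {ν : (V → Fin q) → ℝ} (hν : ∀ x, 0 ≤ ν x) (z : V → Fin q) (Φ : Mp V q) :
    0 ≤ hit ν z Φ := by
  unfold hit
  refine sum_nonneg fun i _ => ?_
  split_ifs
  · exact hν i
  · exact le_refl _

lemma wa_upd {ω : V → V → ℝ} (h0 : ∀ j, ω j j = 1) (w : V) (a : Fin q)
    (j : V) (hd : ∀ y, dep (fun x : V → Fin q => Function.update x w a) y ⊆ {y}) :
    wa ω j (fun x : V → Fin q => Function.update x w a) ≤ 1 := by
  unfold wa
  rw [Finset.sum_eq_single_of_mem j (mem_univ j)]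
  · split_ifs
    · exact (h0 j).le
    · exact zero_le_one
  · intro y _ hy
    rw [if_neg]
    intro hj
    exact hy (mem_singleton.1 (hd y hj)).symm

end

set_option linter.unusedVariables false in
theorem nub_ (h : MK) (h1 : S_PS) (h2 : S_INV) (h3 : S_CLO) (h4 : S_DR) (h5 : S_TOT)
    (h6 : S_POS) : S_NUB := by
  classical
  intro V _ _ G q θ Δ η S ω hy a b z w u ν hν hu
  have hone := hy.wt.one
  have hr : ∀ e, 0 ≤ srate (V := V) G q θ e := by
    have h7 := (h5 V G q θ (le_trans (by norm_num) hy.q2) hy.t0.le hy.t1.le hy.d1).1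
    rintro (e | e)
    · exact h7 e
    · exact h7 (Sum.inr e)
  -- the coefficients and the functions
  let c : V × V × V → ℝ := fun k => (if G.Adj k.1 k.2.1 then 1 else 0) * (ω k.2.2 k.2.1)⁻¹
  let kk : V → V → (V → Fin q) → ℝ := fun v v' x => if v' = v then ν x else 0
  let F : V × V × V → V × Mp V q → ℝ := fun k p =>
    wa ω k.2.2 p.2 * hit (kk k.1 p.1) z p.2
  have hc : ∀ k, 0 ≤ c k := by
    intro k
    refine mul_nonneg ?_ (inv_nonneg.2 (le_trans zero_le_one (hone _ _)))
    split_ifs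
    · exact zero_le_one
    · exact le_refl _
  have hkk : ∀ v v' x, 0 ≤ kk v v' x := by
    intro v v' x
    simp only [kk]
    split_ifs
    · exact hν x
    · exact le_refl _
  -- pointwise bound
  have hpt : ∀ p : V × Mp V q, nb G p * hit ν z p.2 ≤ ∑ k, c k * F k p := by
    intro p
    have hH := hit_nonneg hν z p.2
    have e1 : ∑ k, c k * F k p = (∑ y, (if G.Adj p.1 y then 1 else 0) *
        ∑ j, (ω j y)⁻¹ * wa ω j p.2) * hit ν z p.2 := by
      rw [Fintype.sum_prod_type, Finset.sum_eq_single_of_mem p.1 (mem_univ _)]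
      · rw [Fintype.sum_prod_type, sum_mul]
        refine sum_congr rfl fun y _ => ?_
        rw [mul_sum, sum_mul]
        refine sum_congr rfl fun j _ => ?_
        simp only [c, F, kk]
        rw [hit_ind, if_pos trivial]
        ring
      · intro v _ hv
        refine sum_eq_zero fun k _ => ?_
        simp only [c, F, kk]
        rw [hit_ind, if_neg (Ne.symm hv)]
        ring
    rw [e1]
    refine mul_le_mul_of_nonneg_right ?_ hH
    have e2 : nb G p = ∑ y, if (G.Adj p.1 y ∧ dep p.2 y ≠ ∅) then (1 : ℝ) else 0 := by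
      unfold nb
      rw [Finset.sum_boole]
    rw [e2]
    refine sum_le_sum fun y _ => ?_
    by_cases hA : G.Adj p.1 y
    · rw [if_pos hA, one_mul]
      by_cases hD : dep p.2 y = ∅
      · rw [if_neg (fun h => h.2 hD)]
        exact sum_nonneg fun j _ => mul_nonneg
          (inv_nonneg.2 (le_trans zero_le_one (hone _ _))) (wa_nonneg hone _ _)
      · rw [if_pos ⟨hA, hD⟩]
        obtain ⟨j, hj⟩ := Finset.nonempty_iff_ne_empty.2 hD
        have h8 : (1 : ℝ) ≤ (ω j y)⁻¹ * wa ω j p.2 := by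
          have h9 : 0 < ω j y := lt_of_lt_of_le zero_lt_one (hone j y)
          calc (1 : ℝ) = (ω j y)⁻¹ * ω j y := (inv_mul_cancel₀ h9.ne').symm
            _ ≤ _ := mul_le_mul_of_nonneg_left (wa_ge hone hj) (inv_nonneg.2 h9.le)
        refine h8.trans (Finset.single_le_sum
          (f := fun j => (ω j y)⁻¹ * wa ω j p.2) (fun i _ => ?_) (mem_univ j))
        exact mul_nonneg (inv_nonneg.2 (le_trans zero_le_one (hone _ _))) (wa_nonneg hone _ _)
    · rw [if_neg hA, if_neg (fun h => hA h.1), zero_mul]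
  -- integrate
  have s1 : sx G q θ a b u (fun p => nb G p * hit ν z p.2) (st w a) ≤
      ∑ k, c k * sx G q θ a b u (F k) (st w a) := by
    unfold sx
    rw [← h.lin]
    exact h.mono _ _ _ _ _ _ _ _ hr hu hpt
  let X : V → ℝ := fun v => sx G q θ a b u (fun p => hit (kk v p.1) z p.2) (st w a)
  have hX : ∀ v, 0 ≤ X v := by
    intro v
    have h7 := h.mono (V × Mp V q) _ (srate (V := V) G q θ) (sm a b) (fun _ => 0)
      (fun p => hit (kk v p.1) z p.2) (st w a) u hr hu (fun p => hit_nonneg (hkk v p.1) z p.2)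
    rw [h.cst] at h7
    exact h7
  set ex := Real.exp (-(θ / (2 * q)) * u) with hex
  have s2 : ∀ k, sx G q θ a b u (F k) (st w a) ≤ ex * X k.1 := by
    intro k
    have hd0 : dep (st (V := V) w a).2 (st (V := V) w a).1 = ∅ :=
      ((h4 V q (fun x => x) w).2.2.2.1 a w).2 rfl
    refine (h1 V G q θ Δ η S ω hy a b (kk k.1) z k.2.2 (st w a) u (hkk k.1) hd0 hu).trans ?_
    refine mul_le_mul_of_nonneg_left ?_ (Real.exp_pos _).le
    have h7 : wa ω k.2.2 (st (V := V) w a).2 ≤ 1 :=
      wa_upd hy.wt.self w a k.2.2 (fun y => ((h4 V q (fun x => x) w).2.2.2.1 a y).1)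
    calc wa ω k.2.2 (st (V := V) w a).2 * X k.1 ≤ 1 * X k.1 :=
          mul_le_mul_of_nonneg_right h7 (hX _)
      _ = X k.1 := one_mul _
  have s3 : ∑ k, c k * sx G q θ a b u (F k) (st w a) ≤ ∑ v, (Δ * S * ex) * X v := by
    refine (sum_le_sum fun k _ => mul_le_mul_of_nonneg_left (s2 k) (hc k)).trans ?_
    rw [Fintype.sum_prod_type]
    refine sum_le_sum fun v _ => ?_
    rw [Fintype.sum_prod_type]
    have e3 : ∑ y, ∑ j, c (v, y, j) * (ex * X v) = (∑ y, ∑ j, c (v, y, j)) * (ex * X v) := by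
      rw [sum_mul]
      refine sum_congr rfl fun y _ => ?_
      rw [sum_mul]
    rw [e3]
    have e4 : ∑ y, ∑ j, c (v, y, j) ≤ Δ * S := by
      have e5 : ∀ y, ∑ j, c (v, y, j) ≤ (if G.Adj v y then 1 else 0) * S := by
        intro y
        have e6 : ∑ j, c (v, y, j) = (if G.Adj v y then (1 : ℝ) else 0) * ∑ j, (ω j y)⁻¹ := by
          rw [Finset.mul_sum]
        rw [e6]
        refine mul_le_mul_of_nonneg_left ?_ ?_
        · refine le_trans (le_of_eq ?_) (hy.wt.sum y)
          refine sum_congr rfl fun j _ => ?_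
          rw [hy.wt.sym]
        · split_ifs
          · exact zero_le_one
          · exact le_refl _
      refine (sum_le_sum fun y _ => e5 y).trans ?_
      rw [← sum_mul, Finset.sum_boole]
      refine mul_le_mul_of_nonneg_right ?_ (le_trans zero_le_one hy.S1)
      have h8 := hy.dD v
      unfold dg at h8
      refine Nat.cast_le.2 (le_trans (le_of_eq ?_) h8)
      congr!
    calc (∑ y, ∑ j, c (v, y, j)) * (ex * X v) ≤ (Δ * S) * (ex * X v) :=
          mul_le_mul_of_nonneg_right e4 (mul_nonneg (Real.exp_pos _).le (hX v))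
      _ = Δ * S * ex * X v := by ring
  have s4 : ∑ v, X v = sx G q θ a b u (fun p => hit ν z p.2) (st w a) := by
    have h7 := h.lin (V × Mp V q) _ V (srate (V := V) G q θ) (sm a b) (fun _ => 1)
      (fun v p => hit (kk v p.1) z p.2) (st w a) u
    simp only [one_mul] at h7
    have h8 : (fun y : V × Mp V q => ∑ k, hit (kk k y.1) z y.2) =
        fun p => hit ν z p.2 := by
      funext p
      simp only [kk]
      rw [Finset.sum_eq_single_of_mem p.1 (mem_univ _)]
      · rw [hit_ind, if_pos rfl, one_mul]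
      · intro v _ hv
        rw [hit_ind, if_neg (Ne.symm hv), zero_mul]
    rw [h8] at h7
    exact h7.symm
  refine (s1.trans s3).trans (le_of_eq ?_)
  rw [← mul_sum, s4]

end Pool.Agent.W935.NW.NUB
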